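import Mathlib
import Pool.Agent.P.MP_913bbb_co.Main

namespace Pool.Agent.Results.MP_913bbb_co.Exact

open Pool.Agent.P.MP_913bbb_co

/-- The exact maximum of the independence number of highly irregular trees of each order,
and the constant `c* = 79 / 127`. -/
theorem result :
    (∀ n : ℕ, 2 ≤ n → n ∉ [3, 5, 6, 7, 11, 12, 13] → IsGreatest (alphaSet n) (bestBound n)) ∧
    (∀ n ∈ [3, 5, 6, 7, 11, 12, 13], alphaSet n = ∅) ∧
    IsLUB {x : ℝ | ∃ n : ℕ, 2 ≤ n ∧ ∃ a ∈ alphaSet n, x = (a : ℝ) / n} (79 / 127) :=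
  ⟨fun _ => isGreatest, fun _ => alphaSet_empty, isLUB⟩

end Pool.Agent.Results.MP_913bbb_co.Exact
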